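import Mathlib.Analysis.Real.Cardinality
import Pool.Agent.MP_702fe9_al.h61.Step

/-! Abelian subgroups of the limit group, and the choice of non-isomorphic quotients. -/

set_option autoImplicit false
set_option linter.unusedSectionVars false

namespace Pool.Agent.MP_702fe9_al.H68

open Pool.Agent.MP_702fe9_al.H61

variable {p : ℕ} [hp : Fact p.Prime]

/-- Abelian subgroups of the limit group are finite (the last step of `limit`). -/
theorem abel {G : Type} [Group G] (hG : IsPGroup p G) (D : ℕ → Subgroup G)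
    (hn : ∀ n, (D n).Normal) (hanti : Antitone D) (hfin : ∀ n, (D n).FiniteIndex)
    (hsep : ∀ g : G, g ≠ 1 → ∃ n, g ∉ D n)
    (hch : ∀ n, ∀ g h : G, g ∉ D n → g ^ p = 1 → g * h = h * g →
      ∃ u : G, (∃ i : ℤ, g⁻¹ * u ^ i ∈ D n) ∧ ∃ i : ℤ, h⁻¹ * u ^ i ∈ D n)
    (A : Subgroup G) (hA : ∀ x ∈ A, ∀ y ∈ A, x * y = y * x) : Finite A := by
  by_cases hb : A = ⊥
  · subst hb
    infer_instance
  obtain ⟨⟨g, hgA⟩, hg⟩ := Subgroup.ne_bot_iff_exists_ne_one.mp hb
  obtain ⟨k, hk1, hk2⟩ := exists_order_p (fun h => hg (Subtype.ext h)) (hG g)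
  obtain ⟨n, hzn⟩ := hsep _ hk1
  have := hn n
  have := hfin n
  refine Finite.of_injective (fun c : A => ((c : G) : G ⧸ D n)) fun a b hab => ?_
  have h1 : (a : G)⁻¹ * b ∈ D n := QuotientGroup.eq.mp hab
  have h2 : (a : G)⁻¹ * b ∈ A := mul_mem (inv_mem a.2) b.2
  by_contra hne
  obtain ⟨l, hl1, hl2⟩ := exists_order_p (fun h => hne (Subtype.ext (inv_mul_eq_one.mp h))) (hG _)
  obtain ⟨m, hm⟩ := hsep _ hl1
  have hnm : n ≤ m := by
    by_contra hc
    exact hm (hanti (by omega) (pow_mem h1 l))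
  obtain ⟨u, ⟨i, hi⟩, ⟨j, hj⟩⟩ := hch m _ _ hm hl2 (hA _ (pow_mem h2 l) _ (pow_mem hgA k))
  have := hn m
  exact hzn (mem_of_cyc (p := p) (hanti hnm) (pow_mem h1 l) hm (by rw [hl2]; exact one_mem _)
    (by rw [hk2]; exact one_mem _) hi hj)

/-- Continuum many normal subgroups give continuum many isomorphism types. -/
theorem select (M : (ℕ → Bool) → Subgroup F) [∀ σ, (M σ).Normal] (hM : Function.Injective M) :
    ∃ f : ℝ → ℕ → Bool, ∀ s t, Nonempty (F ⧸ M (f s) ≃* F ⧸ M (f t)) → s = t := by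
  let r : Setoid (ℕ → Bool) := ⟨fun σ τ => Nonempty (F ⧸ M σ ≃* F ⧸ M τ),
    fun _ => ⟨MulEquiv.refl _⟩, fun ⟨e⟩ => ⟨e.symm⟩, fun ⟨e⟩ ⟨e'⟩ => ⟨e.trans e'⟩⟩
  have h1 : ∀ b : Quotient r, Cardinal.mk (Quotient.mk r ⁻¹' {b}) ≤ Cardinal.aleph0 := by
    intro b
    obtain ⟨τ, rfl⟩ := Quotient.exists_rep b
    have hc : Countable (F ⧸ M τ) := QuotientGroup.mk_surjective.countable
    have hc' : Countable (F →* F ⧸ M τ) := FreeGroup.lift.symm.injective.countable
    have he : ∀ σ : Quotient.mk r ⁻¹' {Quotient.mk r τ}, Nonempty (F ⧸ M σ ≃* F ⧸ M τ) :=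
      fun σ => Quotient.exact σ.2
    have hker : ∀ σ : Quotient.mk r ⁻¹' {Quotient.mk r τ},
        ((he σ).some.toMonoidHom.comp (QuotientGroup.mk' (M σ))).ker = M σ := fun σ => by
      ext x
      simp
    rw [Cardinal.mk_le_aleph0_iff]
    refine Function.Injective.countable
      (f := fun σ => (he σ).some.toMonoidHom.comp (QuotientGroup.mk' (M σ))) fun σ σ' h => ?_
    refine Subtype.ext (hM ?_)
    rw [← hker σ, ← hker σ']
    exact congrArg MonoidHom.ker h
  have h2 := Cardinal.mk_le_mk_mul_of_mk_preimage_le _ h1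
  have h4 : Cardinal.mk ℝ ≤ Cardinal.mk (Quotient r) := by
    by_contra h
    rw [Cardinal.mk_real, not_le] at h
    have h5 := Cardinal.mul_lt_of_lt Cardinal.aleph0_le_continuum h Cardinal.aleph0_lt_continuum
    simp only [Cardinal.mk_pi, Cardinal.mk_fintype, Fintype.card_bool, Cardinal.prod_const,
      Cardinal.lift_id, Cardinal.mk_eq_aleph0, Nat.cast_ofNat,
      Cardinal.two_power_aleph0] at h2
    exact absurd h2 (not_le.mpr h5)
  obtain ⟨ι⟩ := (Cardinal.le_def _ _).mp h4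
  refine ⟨fun s => (ι s).out, fun s t h => ι.injective ?_⟩
  rw [← (ι s).out_eq, ← (ι t).out_eq]
  exact Quotient.sound h

end Pool.Agent.MP_702fe9_al.H68
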