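import Mathlib.GroupTheory.GroupAction.Period
import Mathlib.Analysis.SpecificLimits.Basic
import Pool.Agent.MP_702fe9_al.h61.Step

/-! The lower bound for the number of generators of subgroups of finite index. -/

set_option autoImplicit false
set_option linter.unusedSectionVars false

namespace Pool.Agent.MP_702fe9_al.H68

open Pool.Agent.MP_702fe9_al.H61 Finset Module

variable {p : ℕ} [hp : Fact p.Prime]

/-- The conjugates of a power relator impose few conditions on homomorphisms. -/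
theorem reps (N : Subgroup F) [N.FiniteIndex] (w : F) (e : ℕ)
    (hw : ∀ x : F, x⁻¹ * w ^ p ^ (e + 1) * x ∈ N) :
    ∃ T : Finset F, T.card * p ^ (e + 1) ≤ N.index ∧ ∀ α : F → ZMod p, HomOn N α →
      (∀ y ∈ T, α (y⁻¹ * w ^ p ^ (e + 1) * y) = 0) → ∀ y, α (y⁻¹ * w ^ p ^ (e + 1) * y) = 0 := by
  classical
  let Q := MulAction.orbitRel.Quotient (Subgroup.zpowers w) (F ⧸ N)
  have : Fintype (F ⧸ N) := Fintype.ofFinite _
  have : Fintype Q := Fintype.ofFinite _
  let B : Finset Q := univ.filter fun o => w ^ p ^ e • (Quotient.out o : F ⧸ N) ≠ Quotient.out o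
  have hfix : ∀ ω : F ⧸ N, w ^ p ^ (e + 1) • ω = ω := fun ω => by
    obtain ⟨y, rfl⟩ := QuotientGroup.mk_surjective ω
    rw [MulAction.Quotient.smul_mk, smul_eq_mul, eq_comm, QuotientGroup.eq, ← mul_assoc]
    exact hw y
  have hper : ∀ o ∈ B, ∀ i j : ℕ, i ≤ j → j < p ^ (e + 1) →
      w ^ i • (Quotient.out o : F ⧸ N) = w ^ j • (Quotient.out o : F ⧸ N) → i = j := by
    intro o ho i j hij hj h
    obtain ⟨k, rfl⟩ := Nat.exists_eq_add_of_le hij
    rw [pow_add, mul_smul, smul_left_cancel_iff, eq_comm,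
      MulAction.pow_smul_eq_iff_period_dvd] at h
    obtain ⟨a, ha, ha'⟩ := (Nat.dvd_prime_pow hp.out).mp
      (MulAction.pow_smul_eq_iff_period_dvd.mp (hfix (Quotient.out o)))
    have h1 : a = e + 1 := by
      by_contra hne
      refine (mem_filter.mp ho).2 (MulAction.pow_smul_eq_iff_period_dvd.mpr ?_)
      rw [ha']
      exact pow_dvd_pow _ (by omega)
    rw [ha', h1] at h
    have := Nat.eq_zero_of_dvd_of_lt h (by omega)
    omega
  refine ⟨B.image fun o => Quotient.out (Quotient.out o : F ⧸ N), ?_, fun α hα hT y => ?_⟩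
  · refine (Nat.mul_le_mul_right _ card_image_le).trans ?_
    rw [← card_range (p ^ (e + 1)), ← card_product, Subgroup.index, Nat.card_eq_fintype_card,
      ← card_univ]
    refine card_le_card_of_injOn (fun z => w ^ z.2 • (Quotient.out z.1 : F ⧸ N))
      (fun _ _ => mem_coe.mpr (mem_univ _)) ?_
    rintro ⟨o, i⟩ h1 ⟨o', j⟩ h2 h
    simp only [coe_product, Set.mem_prod, mem_coe, mem_range] at h1 h2 h
    have h4 : o = o' := by
      rw [← Quotient.out_eq o, ← Quotient.out_eq o']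
      refine Quotient.sound ⟨⟨(w ^ i)⁻¹ * w ^ j, mul_mem (inv_mem (Subgroup.npow_mem_zpowers w i))
        (Subgroup.npow_mem_zpowers w j)⟩, ?_⟩
      change ((w ^ i)⁻¹ * w ^ j) • (Quotient.out o' : F ⧸ N) = Quotient.out o
      rw [mul_smul, ← h, inv_smul_smul]
    subst h4
    rcases le_total i j with h5 | h5
    · rw [hper o h1.1 i j h5 h2.2 h]
    · rw [hper o h1.1 j i h5 h1.2 h.symm]
  · let o : Q := Quotient.mk _ (y : F ⧸ N)
    obtain ⟨⟨_, i, rfl⟩, hi⟩ : (Quotient.out o : F ⧸ N) ∈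
      MulAction.orbit (Subgroup.zpowers w) (y : F ⧸ N) := Quotient.exact (Quotient.out_eq o)
    have h1 : ((w ^ i * y : F) : F ⧸ N) = Quotient.out o := hi
    obtain ⟨y', hy'⟩ : ∃ y' : F, y' = Quotient.out (Quotient.out o : F ⧸ N) := ⟨_, rfl⟩
    have h2 : (y' : F ⧸ N) = Quotient.out o := by rw [hy', QuotientGroup.out_eq']
    have h4 : (w ^ i * y)⁻¹ * y' ∈ N := QuotientGroup.eq.mp (h1.trans h2.symm)
    have h5 := hα.conj (hw y) h4
    rw [show ((w ^ i * y)⁻¹ * y')⁻¹ * (y⁻¹ * w ^ p ^ (e + 1) * y) * ((w ^ i * y)⁻¹ * y') =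
      y'⁻¹ * w ^ p ^ (e + 1) * y' by group] at h5
    rw [← h5]
    by_cases ho : o ∈ B
    · exact hT _ (mem_image.mpr ⟨o, ho, hy'.symm⟩)
    · have h6 : w ^ p ^ e • (y' : F ⧸ N) = y' := by
        rw [h2]
        by_contra h
        exact ho (mem_filter.mpr ⟨mem_univ _, h⟩)
      rw [MulAction.Quotient.smul_mk, smul_eq_mul, eq_comm, QuotientGroup.eq, ← mul_assoc] at h6
      have h7 := conj_pow (a := y'⁻¹) (b := w ^ p ^ e) (i := p)
      rw [inv_inv] at h7
      rw [pow_succ, pow_mul, ← h7, hα.pow h6, nsmul_eq_mul, ZMod.natCast_self, zero_mul]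

theorem det (N : Subgroup F) [N.FiniteIndex] {ι : Type} [Fintype ι] (g : ι → F)
    (h : ∀ χ ∈ C1 (ZMod p) N, (∀ i, pot χ (g i) = 0) → χ = 0) :
    2 * N.index ≤ Fintype.card ι := by
  let Λ : C1 (ZMod p) N →ₗ[ZMod p] (ι → ZMod p) :=
    LinearMap.pi fun i => LinearMap.proj 1 ∘ₗ I (g i) ∘ₗ (C1 (ZMod p) N).subtype
  have h1 : Function.Injective Λ := by
    rw [injective_iff_map_eq_zero]
    exact fun χ hχ => Subtype.ext (h χ χ.2 fun i => congrFun hχ i)
  have h2 := LinearMap.finrank_le_finrank_of_injective h1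
  rwa [finrank_C1, finrank_fintype_fun_eq_card] at h2

theorem grad (M : Subgroup F) [hMn : M.Normal] (w : ℕ → F) (e : ℕ → ℕ) (n0 : ℕ)
    (he : ∀ j, j + n0 ≤ e j) (hM : ∀ j, w j ^ p ^ (e j + 1) ∈ M)
    (hcof : ∀ C : Subgroup F, C.Normal → Lev p ⊥ C → (∀ j, w j ^ p ^ (e j + 1) ∈ C) → M ≤ C)
    (N : Subgroup F) (hN : Lev p M N) (s : Finset F) (hs : N = Subgroup.closure s ⊔ M) :
    (1 - (1 / 2 : ℝ) ^ n0) * N.index + 1 ≤ s.card := by
  classical
  have := hN.fin
  have : Fintype (F ⧸ N) := Fintype.ofFinite _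
  have hw : ∀ j (x : F), x⁻¹ * w j ^ p ^ (e j + 1) * x ∈ N :=
    fun j x => hN.le (hMn.conj_mem' _ (hM j) x)
  choose T hT1 hT2 using fun j => reps (p := p) N (w j) (e j) (hw j)
  have hp2 : ∀ j, 2 ^ (j + n0 + 1) ≤ p ^ (e j + 1) := fun j =>
    (Nat.pow_le_pow_right two_pos (Nat.succ_le_succ (he j))).trans
      (Nat.pow_le_pow_left hp.out.two_le _)
  have h1 := det (p := p) N (ι := (Σ j : Fin N.index, T j) ⊕ s ⊕ {ω : F ⧸ N // ω ≠ (1 : F)})
    (Sum.elim (fun z => (z.2 : F)⁻¹ * w z.1 ^ p ^ (e z.1 + 1) * z.2)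
      (Sum.elim (fun z => z) fun z => Quotient.out z.1)) ?_
  · have h2 : Fintype.card {ω : F ⧸ N // ω ≠ (1 : F)} + 1 = N.index := by
      rw [Fintype.card_subtype_compl, Fintype.card_subtype_eq, Subgroup.index,
        Nat.card_eq_fintype_card, Nat.sub_add_cancel Fintype.card_pos]
    simp only [Fintype.card_sum, Fintype.card_sigma, Fintype.card_coe] at h1
    rw [Fin.sum_univ_eq_sum_range (fun j => (T j).card)] at h1
    have h4 : ∀ j, ((T j).card : ℝ) ≤ N.index * (1 / 2) ^ n0 / 2 * (1 / 2) ^ j := fun j => by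
      have h5 : ((T j).card : ℝ) * 2 ^ (j + n0 + 1) ≤ N.index := by
        exact_mod_cast (Nat.mul_le_mul_left _ (hp2 j)).trans (hT1 j)
      rw [← le_div_iff₀ (by positivity)] at h5
      refine h5.trans (le_of_eq ?_)
      rw [one_div, inv_pow, inv_pow]
      field_simp
      ring
    have h6 : ∑ j ∈ range N.index, ((T j).card : ℝ) ≤ N.index * (1 / 2) ^ n0 / 2 * 2 := by
      refine (sum_le_sum fun j _ => h4 j).trans ?_
      rw [← mul_sum]
      exact mul_le_mul_of_nonneg_left (sum_geometric_two_le _) (by positivity)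
    have h7 : (2 : ℝ) * N.index ≤ ∑ j ∈ range N.index, ((T j).card : ℝ) +
        (s.card + Fintype.card {ω : F ⧸ N // ω ≠ (1 : F)}) := by exact_mod_cast h1
    have h8 : (Fintype.card {ω : F ⧸ N // ω ≠ (1 : F)} : ℝ) + 1 = N.index := by exact_mod_cast h2
    linarith
  · intro χ hχ h0
    have hα := (pot_addOn hχ).homOn
    have h2 : ∀ j y, pot χ (y⁻¹ * w j ^ p ^ (e j + 1) * y) = 0 := fun j => by
      refine hT2 j _ hα fun y hy => ?_
      by_cases hj : j < N.index
      · exact h0 (.inl ⟨⟨j, hj⟩, ⟨y, hy⟩⟩)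
      · have h4 := (Nat.mul_le_mul (card_pos.mpr ⟨y, hy⟩) (hp2 j)).trans (hT1 j)
        have h5 : j + n0 + 1 < 2 ^ (j + n0 + 1) := Nat.lt_two_pow_self
        omega
    have h4 : Lev p ⊥ hα.ker := (hN.monoK bot_le).ker hα
      (fun κ hκ => by rw [Subgroup.mem_bot.mp hκ, hα.one]) (b := 1) (fun r => by simp)
    have h5 : M ≤ hα.ker := (hcof _ inferInstance h4.core fun j x => by
      have h6 := hw j x⁻¹
      have h7 := h2 j x⁻¹
      rw [inv_inv] at h6 h7
      exact ⟨h6, h7⟩).trans (Subgroup.normalCore_le _)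
    have h6 : N ≤ hα.ker := hs.le.trans (sup_le ((Subgroup.closure_le _).mpr fun x hx =>
      ⟨hs.ge (Subgroup.mem_sup_left (Subgroup.subset_closure hx)), h0 (.inr (.inl ⟨x, hx⟩))⟩) h5)
    have h7 : pot χ = 0 := funext fun f => by
      by_cases hf : (f : F ⧸ N) = (1 : F)
      · exact (h6 (by simpa using QuotientGroup.eq.mp hf.symm)).2
      · obtain ⟨n, hn⟩ := QuotientGroup.mk_out_eq_mul N f
        have h8 : pot χ (Quotient.out (f : F ⧸ N)) = 0 := h0 (.inr (.inr ⟨f, hf⟩))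
        rwa [hn, pot_addOn hχ f n n.2, (h6 n.2).2, add_zero] at h8
    rw [← d_pot χ, h7, map_zero]

end Pool.Agent.MP_702fe9_al.H68
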