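import Mathlib
import Pool.Agent.MP_702fe9_al.h61.Step

set_option autoImplicit false

namespace Pool.Agent.MP_702fe9_al.H68.OldOddPrimes

/-- For every odd prime `p` there is an infinite two-generated `p`-group that is residually a
finite `p`-group and all of whose abelian subgroups are finite. -/
theorem result (p : ℕ) (hp : p.Prime) (h2 : p ≠ 2) :
    ∃ (G : Type) (_ : Group G), Infinite G ∧ (∃ a b : G, Subgroup.closure {a, b} = ⊤) ∧
      IsPGroup p G ∧
      (∀ g : G, g ≠ 1 → ∃ (N : Subgroup G) (_ : N.Normal),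
        Finite (G ⧸ N) ∧ IsPGroup p (G ⧸ N) ∧ g ∉ N) ∧
      ∀ A : Subgroup G, (∀ x ∈ A, ∀ y ∈ A, x * y = y * x) → Finite A := by
  have : Fact p.Prime := ⟨hp⟩
  have h3 : 3 ≤ p := by
    have := hp.two_le
    omega
  obtain ⟨M, hM, hinf, hres, htor, hab⟩ := Pool.Agent.MP_702fe9_al.H61.main (p := p) h3
  refine ⟨FreeGroup (Fin 2) ⧸ M, inferInstance, hinf,
    ⟨QuotientGroup.mk (FreeGroup.of 0), QuotientGroup.mk (FreeGroup.of 1), ?_⟩, htor,
    fun g hg => ?_, fun A hA => hab A hA⟩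
  · have h := congrArg (Subgroup.map (QuotientGroup.mk' M)) (FreeGroup.closure_range_of (Fin 2))
    rw [MonoidHom.map_closure, Subgroup.map_top_of_surjective _ (QuotientGroup.mk'_surjective M)]
      at h
    rw [eq_top_iff, ← h]
    apply Subgroup.closure_mono
    rintro _ ⟨_, ⟨i, rfl⟩, rfl⟩
    fin_cases i
    · exact Or.inl rfl
    · exact Or.inr rfl
  · obtain ⟨N, hN, hfi, hpp, hgN⟩ := hres g hg
    refine ⟨N, hN, inferInstance, fun q => ?_, hgN⟩
    obtain ⟨x, rfl⟩ := QuotientGroup.mk_surjective q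
    obtain ⟨k, hk⟩ := hpp x
    exact ⟨k, by rw [← QuotientGroup.mk_pow, QuotientGroup.eq_one_iff]; exact hk⟩

end Pool.Agent.MP_702fe9_al.H68.OldOddPrimes
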