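import Pool.Agent.MP_702fe9_al.h61.Step

/-! The step of the construction with a free exponent of the new relator. -/

set_option autoImplicit false
set_option linter.unusedSectionVars false

namespace Pool.Agent.MP_702fe9_al.H68

open Pool.Agent.MP_702fe9_al.H61 Module

variable {p : ℕ} [hp : Fact p.Prime]

/-- No power `w ^ p ^ a` lies in all levels. -/
def NT (p : ℕ) (K : Subgroup F) (w : F) : Prop :=
  ∀ a : ℕ, ∃ N : Subgroup F, Lev p K N ∧ w ^ (p ^ a) ∉ N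

theorem exists_NT (h3 : 3 ≤ p) {X : Cx} {U : Subgroup F} (st : X.St p U) : ∃ w, NT p X.KK w := by
  obtain ⟨ok, hP⟩ := st
  have hV := ok.lev.core
  obtain ⟨φ, k, hk⟩ := Cx.exists_deep h3 ok ok.lev le_rfl hP hV
    (fun g _ m hm => (inferInstance : U.normalCore.Normal).conj_mem' m hm g) U.normalCore.index
  have h1 : ¬ U.normalCore ≤ φ.tw p k := fun h => by
    have := hk.2
    rw [inf_eq_left.mpr h] at this
    omega
  obtain ⟨t, ht, ht'⟩ := SetLike.not_le_iff_exists.mp h1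
  have htU : t ∈ U := U.normalCore_le ht
  have h0 : φ.A t ≠ 0 := fun h => ht' ⟨htU, by rw [h]; exact dvd_zero _⟩
  refine ⟨t, fun a => ⟨φ.tw p (a + (φ.A t).natAbs), φ.tw_lev ok.lev _, fun hm => ?_⟩⟩
  have h2 := hm.2
  rw [φ.add.homOn.pow htU, nsmul_eq_mul, pow_add, Nat.cast_pow,
    mul_dvd_mul_iff_left (pow_ne_zero _ (by exact_mod_cast hp.out.ne_zero))] at h2
  have h4 := Nat.le_of_dvd (Int.natAbs_pos.mpr h0) (Int.natAbs_dvd_natAbs.mpr h2)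
  rw [Int.natAbs_pow, Int.natAbs_natCast] at h4
  exact absurd h4 (not_le.mpr (Nat.lt_pow_self hp.out.one_lt))

theorem step2 (h3 : 3 ≤ p) {X : Cx} {U : Subgroup F} (st : X.St p U) {w : F} (hw : NT p X.KK w)
    (V : Subgroup F) (hV : V.Normal) (hVl : Lev p X.KK V) (n : ℕ) :
    ∃ (X' : Cx) (U' : Subgroup F) (e : ℕ), X'.St p U' ∧ X.KK ≤ X'.KK ∧ U' ≤ V ∧
      n ≤ U'.index ∧ n ≤ e ∧ w ^ (p ^ (e + 1)) ∈ X'.KK ∧ w ^ (p ^ e) ∉ U' ∧
      ∀ C : Subgroup F, C.Normal → X.KK ≤ C → w ^ (p ^ (e + 1)) ∈ C → X'.KK ≤ C := by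
  obtain ⟨ok, hP⟩ := st
  obtain ⟨Ld, a0, ha0⟩ := Cx.exists_loopData h3 ok hP w hw
  obtain ⟨N, hN, hle, hNV, hnorm, Reps, hfin, hsep, ke, hke⟩ :=
    Ld.ean h3 ok (ok.ch (ok.modelPS hP)) (Ld.injProp h3 ok) V hV hVl
  let ι : Type := {q : Reps × Reps // (q.1 : F) ≠ q.2}
  have : Finite Reps := hfin
  have := Fintype.ofFinite ι
  have htr := fun i : ι => Ld.tr_band ok hN hle i.1.1 i.1.2 (hsep _ i.1.1.2 _ i.1.2.2 i.2)
  choose ρi ki hi using htr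
  obtain ⟨k10, hk10⟩ := Ld.sheets ok hN hle (Finset.univ.sup ρi)
  obtain ⟨k1, hk1, hk1'⟩ : ∃ k1, k10 ≤ k1 ∧ ∀ i, ki i ≤ k1 :=
    ⟨k10 + Finset.univ.sup ki, by omega, fun i =>
      (Finset.le_sup (f := ki) (Finset.mem_univ i)).trans (Nat.le_add_left _ _)⟩
  choose θ hθ hθs hθn using fun i => hi i k1 (hk1' i)
  have hα : HomOn (Ld.V N k1) (fun x => (fun i => pot (θ i) x)) := by
    intro a _ b hb
    funext i
    exact pot_addOn (hθ i).1 a b hb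
  have hN2 : Lev p X.KK hα.ker := (Ld.V_lev hN k1).ker hα
    (fun κ hκ => funext (fun i => ok.pot_kill (Ld.V_lev hN k1) (hθ i) κ hκ)) (b := 1)
    (fun r => by funext i; simp)
  have hN2le : hα.ker ≤ Ld.V N k1 := fun _ h => h.1
  have hN2n : ∀ g ∈ Ld.V N k1, ∀ m ∈ hα.ker, g⁻¹ * m * g ∈ hα.ker := fun g hg m hm =>
    ⟨Subgroup.mul_mem _ (Subgroup.mul_mem _ (Subgroup.inv_mem _ hg) hm.1) hg,
      (hα.conj hm.1 hg).trans hm.2⟩
  have hsh := hk10 k1 hk1 θ hθ (fun i e he => by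
      obtain ⟨l, hl⟩ := hθs i e he
      refine ⟨l, hl.trans ?_⟩
      exact_mod_cast Finset.le_sup (f := ρi) (Finset.mem_univ i)) Reps hfin
    (fun y hy y' hy' hne => ⟨⟨(⟨y, hy⟩, ⟨y', hy'⟩), hne⟩, hθn _⟩) hα.ker
    (fun m => ⟨fun h => ⟨h.1, fun i => congrFun h.2 i⟩, fun h => ⟨h.1, funext h.2⟩⟩)
  generalize hα.ker = N2 at hN2 hN2le hN2n hsh
  have hVk : ∀ k, Ld.V N (k + k1) ≤ Ld.V N k1 := fun k =>
    inf_le_inf_left _ (Ld.φ.tw_anti (Nat.le_add_left _ _))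
  have hVeq : ∀ k, N2 ⊓ Ld.V N k = Ld.V N2 k := fun k => by
    rw [← inf_assoc, inf_eq_left.mpr (hN2le.trans inf_le_left)]
  obtain ⟨hl, ⟨C, hC⟩, hr⟩ := ((Ld.tower_V ok hN hnorm).shift k1).inf
    (fun k => Ld.yinv ok (Ld.V_le N _)) hN2 (fun k g hg => hN2n g (hVk k hg))
  simp only [hVeq] at hl hC hr
  have := hN2.fin
  set L := N2.index * Reps.ncard with hL
  obtain ⟨ks, hks⟩ := hsh (2 * (C + L) + 2)
  obtain ⟨kr, hkr⟩ := hr (2 * (C + L) + 2 + 2 * L + n)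
  obtain ⟨km, -, hkm⟩ := Ld.exists_rel_mem hN2
  obtain ⟨k', h1, h2, h4, h5, h9⟩ : ∃ k', ks ≤ k' + k1 ∧ kr ≤ k' ∧ km ≤ k' + k1 ∧ ke ≤ k' + k1 ∧
      Ld.v + n + 1 ≤ k' + k1 :=
    ⟨ks + kr + km + ke + (Ld.v + n + 1), by omega, by omega, by omega, by omega, by omega⟩
  have hg := hkr k' h2
  have hC' := hC k'
  have hlev := hl k'
  have hV1 := hVk k'
  generalize k' + k1 = k at h1 h4 h5 h9 hg hC' hlev hV1
  have := hlev.fin
  have hle2 : Ld.V N2 k ≤ Ld.V N k := inf_le_inf_right _ (hN2le.trans inf_le_left)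
  have hcov : Cov p (Ld.V N k) (Ld.V N2 k) := hlev.cov hle2 (fun g hg m hm =>
    ⟨hN2n g (hV1 hg) m hm.1, Ld.φ.tw_conj k hg.2.1 hm.2⟩)
  have hY1 : YInv (fun _ : Unit => Ld.newY N Reps k) (Ld.V N k) := by
    rintro _ _ g hg ⟨y, hy, g', hg', rfl⟩
    exact ⟨y, hy, g' * g, Subgroup.mul_mem _ hg' hg, mul_assoc _ _ _⟩
  have hY' := hY1.mono hle2
  have hY : YInv X.Y (Ld.V N2 k) := Ld.yinv ok (Ld.V_le N2 k)
  have hnn : nn (fun _ : Unit => Ld.newY N Reps k) (Ld.V N2 k) ≤ L := by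
    refine (hcov.nn_le hY1 (yfin_of_finite _)).trans (Nat.mul_le_mul ?_ (nn_cosets Reps hfin _))
    rw [← hVeq, Subgroup.inf_relIndex_right, ← Subgroup.relIndex_top_right]
    exact Subgroup.relIndex_le_of_le_right le_top
      (by rw [Subgroup.relIndex_top_right]; exact Subgroup.FiniteIndex.index_ne_zero)
  have h6 := Cx.ext_h2 (p := p) (ρ := Ld.rel k) hY hY'
  have h7 := Cx.ext_nn (ρ := Ld.rel k) hY hY'
  have h8 := hg.2
  have hrel : w ^ p ^ (a0 + (k - 1 - Ld.v) + 1) = Ld.rel k := by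
    rw [show a0 + (k - 1 - Ld.v) + 1 = a0 + (k - Ld.v) by omega, pow_add, pow_mul, ← ha0]
  refine ⟨Ld.newX N Reps k, Ld.V N2 k, a0 + (k - 1 - Ld.v), ⟨⟨fun j hj => ?_, Cx.ext_yinv hY hY',
    Cx.ext_lev _ _ hlev (fun x => by rw [Ld.conj_pow_eq]; exact (hkm k h4).1 x)⟩, ?_, ?_⟩,
    Cx.KK_le_ext _ _, inf_le_left.trans (hN2le.trans (inf_le_left.trans hNV)), by omega,
    by omega, ?_, fun hm => ?_, fun C _ hC1 hC2 => ?_⟩
  · rcases Nat.lt_succ_iff_lt_or_eq.mp hj with hj | rfl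
    · exact Cx.ext_relOK _ _ hj (ok.rel j hj)
    · unfold Cx.RelOK
      rw [Cx.ext_K _ _ le_rfl, Cx.ext_ρ_self, Cx.ext_Y_self]
      exact hke k h5
  · refine (Cx.ext_good hY hY' hnn (hg.1.mono (Nat.le_add_right _ _)) (hks k h1)).mono ?_
    change 2 * (X.ext (Ld.rel k) (Ld.newY N Reps k)).h2 p (Ld.V N2 k) + 0 + 2 ≤ _
    omega
  · change nn (X.ext (Ld.rel k) (Ld.newY N Reps k)).Y (Ld.V N2 k) + 0 < _
    omega
  · rw [hrel]
    exact Cx.ρ_mem_ext _ _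
  · have h10 := Ld.A_rel (k := k - 1) (by omega) 1
    have h11 : Ld.a 1 = Ld.w := by simp [LoopData.a]
    rw [pow_add, pow_mul, ← ha0] at hm
    have h12 := hm.2.2
    rw [h11] at h10
    rw [h10] at h12
    obtain ⟨k, rfl⟩ : ∃ l, k = l + 1 := ⟨k - 1, by omega⟩
    rw [Nat.add_sub_cancel, pow_succ,
      mul_dvd_mul_iff_left (pow_ne_zero _ (by exact_mod_cast hp.out.ne_zero))] at h12
    exact Ld.u_unit 1 h12
  · refine Subgroup.normalClosure_le_normal ?_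
    rintro _ ⟨i, hi, rfl⟩
    rcases Nat.lt_succ_iff_lt_or_eq.mp hi with hi | rfl
    · rw [Cx.ext_ρ_ne _ _ _ hi.ne]
      exact hC1 (X.ρ_mem hi)
    · rw [Cx.ext_ρ_self, ← hrel]
      exact hC2

end Pool.Agent.MP_702fe9_al.H68
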