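import Mathlib.GroupTheory.Schreier
import Pool.Agent.MP_702fe9_al.h68.Step2
import Pool.Agent.MP_702fe9_al.h68.Abel
import Pool.Agent.MP_702fe9_al.h68.Grad

/-! The binary tree of constructions and the limit groups. -/

set_option autoImplicit false
set_option linter.unusedSectionVars false

namespace Pool.Agent.MP_702fe9_al.H68

open Pool.Agent.MP_702fe9_al.H61

variable {p : ℕ} [hp : Fact p.Prime]

/-- States of the construction. -/
abbrev State (p : ℕ) [Fact p.Prime] : Type := {s : Cx × Subgroup F // s.1.St p s.2}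

theorem NT.mono {K K' : Subgroup F} (h : K ≤ K') {w : F} (hw : NT p K' w) : NT p K w :=
  fun a => (hw a).imp fun _ hN => ⟨hN.1.monoK h, hN.2⟩

theorem tstep (h3 : 3 ≤ p) (w : ℕ → F) (hw : Function.Surjective w) (c : ℕ → Finset F) (n0 : ℕ)
    (s : State p) (n : ℕ) : ∃ (i : ℕ) (t : Bool → State p) (e : Bool → ℕ),
      (∀ j < i, ¬ NT p s.1.1.KK (w j)) ∧ NT p s.1.1.KK (w i) ∧ e false < e true ∧ ∀ b,
        s.1.1.KK ≤ (t b).1.1.KK ∧ (t b).1.2 ≤ s.1.2.normalCore ∧ n ≤ (t b).1.2.index ∧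
        n + n0 ≤ e b ∧ w i ^ p ^ (e b + 1) ∈ (t b).1.1.KK ∧ w i ^ p ^ e b ∉ (t b).1.2 ∧
        (∀ C : Subgroup F, C.Normal → s.1.1.KK ≤ C → w i ^ p ^ (e b + 1) ∈ C →
          (t b).1.1.KK ≤ C) ∧
        (Lev p s.1.1.KK (Subgroup.closure (c n)) → (t b).1.2 ≤ Subgroup.closure (c n)) ∧
        ∀ g h : F, g ∉ s.1.2.normalCore → g ^ p ∈ (t b).1.2 → g⁻¹ * (h⁻¹ * g * h) ∈ (t b).1.2 →
          ∃ u : F, (∃ i : ℤ, g⁻¹ * u ^ i ∈ s.1.2.normalCore) ∧
            ∃ i : ℤ, h⁻¹ * u ^ i ∈ s.1.2.normalCore := by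
  classical
  obtain ⟨⟨X, U⟩, hs⟩ := s
  have hex : ∃ i, NT p X.KK (w i) := by
    obtain ⟨x, hx⟩ := exists_NT h3 hs
    obtain ⟨i, rfl⟩ := hw x
    exact ⟨i, hx⟩
  obtain ⟨b, hb⟩ := hs.1.ch (hs.1.modelPS hs.2)
  obtain ⟨V0, hV1, hV2, hV3, hV4⟩ :=
    hb U.normalCore inferInstance hs.1.lev.core (Subgroup.normalCore_le U)
  obtain ⟨V, hVn, hVl, hV5, hV6⟩ : ∃ V : Subgroup F, V.Normal ∧ Lev p X.KK V ∧ V ≤ V0 ∧
      (Lev p X.KK (Subgroup.closure (c n)) → V ≤ Subgroup.closure (c n)) := by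
    by_cases h : Lev p X.KK (Subgroup.closure (c n))
    · exact ⟨_, Subgroup.normal_inf_normal _ _, hV2.inf h.core, inf_le_left,
        fun _ => inf_le_right.trans (Subgroup.normalCore_le _)⟩
    · exact ⟨V0, hV1, hV2, le_rfl, fun h' => absurd h' h⟩
  obtain ⟨X1, U1, e1, a1, a2, a3, a4, a5, a6, a7, a8⟩ :=
    step2 h3 hs (Nat.find_spec hex) V hVn hVl (n + n0)
  obtain ⟨X2, U2, e2, b1, b2, b3, b4, b5, b6, b7, b8⟩ :=
    step2 h3 hs (Nat.find_spec hex) V hVn hVl (n + n0 + e1 + 1)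
  have hch : ∀ U' : Subgroup F, U' ≤ V → ∀ g h : F, g ∉ U.normalCore → g ^ p ∈ U' →
      g⁻¹ * (h⁻¹ * g * h) ∈ U' → ∃ u : F, (∃ i : ℤ, g⁻¹ * u ^ i ∈ U.normalCore) ∧
        ∃ i : ℤ, h⁻¹ * u ^ i ∈ U.normalCore := fun U' hU' g h hg h1 h2 => by
    obtain ⟨u, hu1, hu2, -⟩ := hV4 g h hg (hV5 (hU' h1)) (hV5 (hU' h2))
    exact ⟨u, hu1, hu2⟩
  refine ⟨Nat.find hex, fun b => cond b ⟨(X2, U2), b1⟩ ⟨(X1, U1), a1⟩, fun b => cond b e2 e1,
    fun j hj => Nat.find_min hex hj, Nat.find_spec hex, show e1 < e2 by omega, fun b => ?_⟩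
  cases b
  · exact ⟨a2, a3.trans (hV5.trans hV3), show n ≤ U1.index by omega, a5, a6, a7, a8,
      fun h => a3.trans (hV6 h), hch U1 a3⟩
  · exact ⟨b2, b3.trans (hV5.trans hV3), show n ≤ U2.index by omega, show n + n0 ≤ e2 by omega,
      b6, b7, b8, fun h => b3.trans (hV6 h), hch U2 b3⟩

theorem tree (h3 : 3 ≤ p) (n0 : ℕ) : ∃ C : (ℕ → Bool) → ℕ → Subgroup F,
    (Function.Injective fun σ => ⨅ n, C σ n) ∧ ∀ σ, (∀ n, (C σ n).Normal) ∧ Antitone (C σ) ∧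
      (∀ n, Lev p ⊥ (C σ n)) ∧ (∀ n, n ≤ (C σ (n + 1)).index) ∧
      (∀ x : F, ∃ a : ℕ, x ^ p ^ a ∈ ⨅ n, C σ n) ∧
      (∀ n, ∀ g h : F, g ∉ C σ n → g ^ p ∈ C σ (n + 1) → g⁻¹ * (h⁻¹ * g * h) ∈ C σ (n + 1) →
        ∃ u : F, (∃ i : ℤ, g⁻¹ * u ^ i ∈ C σ n) ∧ ∃ i : ℤ, h⁻¹ * u ^ i ∈ C σ n) ∧
      ∃ (v : ℕ → F) (e : ℕ → ℕ), (∀ j, j + n0 ≤ e j) ∧ (∀ j, v j ^ p ^ (e j + 1) ∈ ⨅ n, C σ n) ∧
        ∀ D : Subgroup F, D.Normal → Lev p ⊥ D → (∀ j, v j ^ p ^ (e j + 1) ∈ D) →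
          ⨅ n, C σ n ≤ D := by
  classical
  obtain ⟨w, hw⟩ := exists_surjective_nat F
  obtain ⟨c, hc⟩ := exists_surjective_nat (Finset F)
  choose ix nx ex h1 h2 h4 h5 using tstep h3 w hw c n0
  obtain ⟨s, hs0, hs⟩ : ∃ s : (ℕ → Bool) → ℕ → State p,
      (∀ σ, s σ 0 = ⟨(Cx.start, ⊤), start_St⟩) ∧ ∀ σ n, nx (s σ n) n (σ n) = s σ (n + 1) :=
    ⟨fun σ n => Nat.rec ⟨(Cx.start, ⊤), start_St⟩ (fun n t => nx t n (σ n)) n, fun _ => rfl,
      fun _ _ => rfl⟩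
  have h6 := fun σ n => h5 (s σ n) n (σ n)
  simp only [hs] at h6
  have hlev : ∀ σ n, Lev p (s σ n).1.1.KK (s σ n).1.2.normalCore :=
    fun σ n => (s σ n).2.1.lev.core
  have hanti : ∀ σ, Antitone fun n => (s σ n).1.2.normalCore := fun σ =>
    antitone_nat_of_succ_le fun n => (Subgroup.normalCore_le _).trans (h6 σ n).2.1
  have hmono : ∀ σ, Monotone fun n => (s σ n).1.1.KK := fun σ =>
    monotone_nat_of_le_succ fun n => (h6 σ n).1
  have hKM : ∀ σ n, (s σ n).1.1.KK ≤ ⨅ k, (s σ k).1.2.normalCore := fun σ n => le_iInf fun k =>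
    (hmono σ (Nat.le_add_left n k)).trans
      ((hlev σ (k + n)).le.trans (hanti σ (Nat.le_add_right k n)))
  have hMU : ∀ σ n, ⨅ k, (s σ k).1.2.normalCore ≤ (s σ n).1.2 := fun σ n =>
    (iInf_le _ n).trans (Subgroup.normalCore_le _)
  refine ⟨fun σ n => (s σ n).1.2.normalCore, fun σ τ h => ?_, fun σ => ⟨fun _ => inferInstance,
    hanti σ, fun n => (hlev σ n).monoK bot_le, fun n => ?_, fun x => ?_, fun n g h hg a b =>
      (h6 σ n).2.2.2.2.2.2.2.2 g h hg (Subgroup.normalCore_le _ a) (Subgroup.normalCore_le _ b),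
    fun j => w (ix (s σ j) j), fun j => ex (s σ j) j (σ j), fun j => (h6 σ j).2.2.2.1,
    fun j => hKM σ _ (h6 σ j).2.2.2.2.1, fun D hD hDl hDv => ?_⟩⟩
  · have key : ∀ σ τ : ℕ → Bool, ∀ n, s σ n = s τ n → σ n = false → τ n = true →
        ⨅ k, (s σ k).1.2.normalCore ≠ ⨅ k, (s τ k).1.2.normalCore := by
      intro σ τ n hn h7 h8 h9
      have a := hKM σ _ (h6 σ n).2.2.2.2.1
      have b := (h6 τ n).2.2.2.2.2.1
      rw [h9, hn, h7] at a
      rw [h8] at b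
      obtain ⟨r, hr⟩ := Nat.exists_eq_add_of_le (Nat.succ_le_of_lt (h4 (s τ n) n))
      rw [hr, pow_add, pow_mul] at b
      exact b (pow_mem (hMU τ _ a) _)
    have h7 : ∀ n, s σ n = s τ n → σ n = τ n := fun n hn => by
      cases h8 : σ n <;> cases h9 : τ n
      · rfl
      · exact absurd h (key σ τ n hn h8 h9)
      · exact absurd h.symm (key τ σ n hn.symm h9 h8)
      · rfl
    have h8 : ∀ n, s σ n = s τ n := fun n => by
      induction n with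
      | zero => rw [hs0, hs0]
      | succ n ih => rw [← hs, ← hs, h7 n ih, ih]
    exact funext fun n => h7 n (h8 n)
  · have := (hlev σ (n + 1)).fin
    exact (h6 σ n).2.2.1.trans (Nat.le_of_dvd
      (Nat.pos_of_ne_zero Subgroup.FiniteIndex.index_ne_zero)
      (Subgroup.index_dvd_of_le (Subgroup.normalCore_le _)))
  · have h7 : ∀ n, ∀ j < n, ¬ NT p (s σ n).1.1.KK (w j) := fun n => by
      induction n with
      | zero => exact fun j hj => absurd hj (Nat.not_lt_zero j)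
      | succ n ih =>
        intro j hj hN
        rcases lt_trichotomy j (ix (s σ n) n) with h | rfl | h
        · exact h1 _ n j h (hN.mono (h6 σ n).1)
        · obtain ⟨N, hN1, hN2⟩ := hN (ex (s σ n) n (σ n) + 1)
          exact hN2 (hN1.le (h6 σ n).2.2.2.2.1)
        · exact ih _ (by omega) (h2 _ n)
    obtain ⟨j, rfl⟩ := hw x
    have h8 := h7 (j + 1) j (Nat.lt_succ_self j)
    simp only [NT, not_forall, not_exists, not_and, not_not] at h8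
    obtain ⟨a, ha⟩ := h8
    refine ⟨a, Subgroup.mem_iInf.mpr fun k => hanti σ (Nat.le_add_right k (j + 1)) ?_⟩
    exact ha _ ((hlev σ _).monoK (hmono σ (Nat.le_add_left _ k)))
  · have h7 : ∀ n, (s σ n).1.1.KK ≤ D := fun n => by
      induction n with
      | zero =>
        rw [hs0]
        exact Subgroup.normalClosure_le_normal fun _ ⟨i, hi, _⟩ => absurd hi (Nat.not_lt_zero i)
      | succ n ih => exact (h6 σ n).2.2.2.2.2.2.1 D hD ih (hDv n)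
    have := hDl.fin
    obtain ⟨t, ht⟩ := (Group.fg_iff_subgroup_fg D).mp inferInstance
    obtain ⟨n, rfl⟩ := hc t
    have h8 := (h6 σ n).2.2.2.2.2.2.2.1
    rw [ht] at h8
    exact (hMU σ (n + 1)).trans (h8 ⟨hDl.fin, h7 n, hDl.pp⟩)

end Pool.Agent.MP_702fe9_al.H68
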